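import Pool.Agent.FX.Bas84
import Pool.Agent.FX.Crit
import Pool.Agent.FX.Ext
import Pool.Agent.FX.Surp
import Pool.Agent.FX.ThE
import Pool.Agent.FX.ThE2
import Pool.Agent.FX.Pe1G
import Pool.Agent.FX.Pe2G
import Pool.Agent.FX.LemGG
import Pool.Agent.FX.Del
import Pool.Agent.FX.Bri
import Pool.Agent.FX.Com
import Pool.Agent.FX.Sub
import Pool.Agent.FX.Face
import Pool.Agent.FX.Eul
import Pool.Agent.FX.PlaG
import Pool.Agent.FX.Sep
import Pool.Agent.FX.HypK
import Pool.Agent.FX.PosG
import Pool.Agent.FX.PsiG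
import Pool.Agent.FX.KeyG
import Pool.Agent.FX.ForbG
import Pool.Agent.FX.FixG
import Pool.Agent.FX.Ran
import Pool.Agent.FX.Flex
import Pool.Agent.FX.MainG
import Pool.Agent.FX.CycG

/-!
Flexibility of planar graphs of girth at least five with lists of size three, if no two distinct
5-cycles share an edge, and more generally if, up to a family of edge-disjoint 5-cycles, there are
few 5-cycles in every connected vertex set.
-/

set_option autoImplicit false

namespace Pool.Agent.Results.MP_07b392_co.DisjointFiveCycles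

open Classical
open Pool.Agent.H41.Fire (IsPlanar)
open Pool.Agent.FX

universe u v

/-- `(G, L)` is weighted `ε`-flexible for all list assignments `L` with lists of size three: for
every weighted request `w` some `L`-colouring satisfies a proportion `ε` of the total weight. -/
def WeightedFlexible (V : Type u) [Fintype V] (C : Type v) (G : SimpleGraph V) (ε : ℝ) : Prop :=
  ∀ L : V → Finset C, (∀ x, (L x).card = 3) → ∀ w : V → C → ℝ, (∀ x, ∀ c ∈ L x, 0 ≤ w x c) →
    ∃ φ : V → C, (∀ x, φ x ∈ L x) ∧ (∀ x y, G.Adj x y → φ x ≠ φ y) ∧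
      ε * ∑ x, ∑ c ∈ L x, w x c ≤ ∑ x, w x (φ x)

/-- `P` is the vertex set of a 5-cycle of `G`. -/
def FiveCycle {V : Type u} (G : SimpleGraph V) (P : Finset V) : Prop :=
  ∃ (a : V) (p : G.Walk a a), p.IsCycle ∧ p.length = 5 ∧ ∀ x, x ∈ P ↔ x ∈ p.support

/-- There is an absolute `ε > 0` such that a planar graph of girth at least five is weighted
`ε`-flexible for lists of size three, if there is a family `F` of 5-cycles no two of which share
an edge such that every connected vertex set `X` contains at most `3 + |X| / 100` 5-cycles outside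
`F`; in particular (`F` = all 5-cycles) if no two distinct 5-cycles share an edge. -/
theorem result : ∃ ε : ℝ, 0 < ε ∧ ∀ (V : Type u) [Fintype V] (C : Type v) (G : SimpleGraph V),
    IsPlanar G → 5 ≤ G.egirth → ∀ F : Set (Finset V), (∀ P ∈ F, FiveCycle G P) →
    (∀ P ∈ F, ∀ Q ∈ F, P ≠ Q → ∀ a b, a ∈ P → b ∈ P → a ∈ Q → b ∈ Q → ¬ G.Adj a b) →
    (∀ X : Finset V, (G.induce (X : Set V)).Connected →
      100 * Nat.card {P : Finset V // FiveCycle G P ∧ P ⊆ X ∧ P ∉ F} ≤ 300 + X.card) →
    WeightedFlexible V C G ε := by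
  refine ⟨(1 / 3 : ℝ) ^ (2 * K2), by positivity, ?_⟩
  intro V _ C G hp hg F hF hdis hX
  have hb : SBas.{u} := bas84
  have hcr : SCrit.{u, v} := crit
  have hex : SExt.{u, v} := ext2
  have hsu : SSurp.{u, v} := surp hb hcr
  have hE : SThE.{u, v} := thE hb hcr hex hsu
  have hE2 : SThE2.{u, v} := thE2 hb hcr hex hE
  have hp1 : SPe1G.{u} := pe1G hb
  have hp2 : SPe2G.{u} := pe2G hb
  have hL : SLemGG.{u, v} := lemGG hb hp1 hcr hE2
  have hsub : SSub.{u} := sub del bri com
  have hfa : SFace.{u} := face hb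
  have heu : SEul.{u} := eul hb hsub hfa
  have hpl : SPlaG.{u} := plaG hb heu
  have hhyp : SHypK.{u} := hypK sep
  have hpos : SPosG.{u} := posG hb hp1
  have hkey : SKeyG.{u} := keyG (psiG hb hp2)
  have hfo : SForbG.{u, v} := forbG hcr hL
  have hfi : SFixG.{u, v} := fixG hb hcr hex hL hfo
  have hfl : SFlex.{u, v} := flex ran
  obtain ⟨h5, hfive, hcn⟩ := cycG V G hg
  refine mainG hhyp hpl hpos hkey hfo hfi hfl V C G F hp h5 ⟨fun P hP => (hfive P).1 (hF P hP),
    hdis⟩ ?_
  intro X hC
  have h1 := hX X ((hcn X).1 hC)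
  have h2 : Nat.card {P : Finset V // FiveCycle G P ∧ P ⊆ X ∧ P ∉ F} = bg G F X := by
    unfold bg
    rw [Nat.card_eq_fintype_card, Fintype.card_subtype]
    apply congrArg Finset.card
    ext P
    simp only [Finset.mem_filter, Finset.mem_univ, true_and, pe, Finset.mem_powerset]
    constructor
    · rintro ⟨a, b, c⟩
      exact ⟨⟨b, (hfive P).1 a⟩, c⟩
    · rintro ⟨⟨b, a⟩, c⟩
      exact ⟨(hfive P).2 a, b, c⟩
  omega

end Pool.Agent.Results.MP_07b392_co.DisjointFiveCycles
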