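import Pool.Agent.FX.Bas84
import Pool.Agent.FX.Crit
import Pool.Agent.FX.Ext
import Pool.Agent.FX.Surp
import Pool.Agent.FX.ThE
import Pool.Agent.FX.ThE2
import Pool.Agent.FX.LemA
import Pool.Agent.FX.Del
import Pool.Agent.FX.Bri
import Pool.Agent.FX.Com
import Pool.Agent.FX.Sub
import Pool.Agent.FX.Sep
import Pool.Agent.FX.HypK
import Pool.Agent.FX.PosA
import Pool.Agent.FX.KeyA
import Pool.Agent.FX.ForbA
import Pool.Agent.FX.FixA
import Pool.Agent.FX.Ran
import Pool.Agent.FX.Flex
import Pool.Agent.FX.MainE
import Pool.Agent.FX.Eul5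
import Pool.Agent.FX.CycG

/-!
Flexibility of planar graphs of girth at least five with lists of size three: an edge density
condition for large connected vertex sets is sufficient (for instance maximum average degree at
most three).
-/

set_option autoImplicit false

namespace Pool.Agent.Results.MP_07b392_co.EdgeDensity

open Pool.Agent.H41.Fire (IsPlanar)
open Pool.Agent.FX

universe u v

/-- `(G, L)` is weighted `ε`-flexible for all list assignments `L` with lists of size three: for
every weighted request `w` some `L`-colouring satisfies a proportion `ε` of the total weight. -/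
def WeightedFlexible (V : Type u) [Fintype V] (C : Type v) (G : SimpleGraph V) (ε : ℝ) : Prop :=
  ∀ L : V → Finset C, (∀ x, (L x).card = 3) → ∀ w : V → C → ℝ, (∀ x, ∀ c ∈ L x, 0 ≤ w x c) →
    ∃ φ : V → C, (∀ x, φ x ∈ L x) ∧ (∀ x y, G.Adj x y → φ x ≠ φ y) ∧
      ε * ∑ x, ∑ c ∈ L x, w x c ≤ ∑ x, w x (φ x)

/-- There is an absolute `ε > 0` such that every planar graph of girth at least five in which
every connected set `X` of at least 21 vertices spans at most `(25 |X| - 20) / 16` edges is
weighted `ε`-flexible for lists of size three. -/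
theorem result : ∃ ε : ℝ, 0 < ε ∧ ∀ (V : Type u) [Fintype V] (C : Type v) (G : SimpleGraph V),
    IsPlanar G → 5 ≤ G.egirth →
    (∀ X : Finset V, (G.induce (X : Set V)).Connected → 21 ≤ X.card →
      16 * Nat.card (G.induce (X : Set V)).edgeSet + 20 ≤ 25 * X.card) →
    WeightedFlexible V C G ε := by
  refine ⟨(1 / 3 : ℝ) ^ (2 * K2), by positivity, ?_⟩
  intro V _ C G hp hg hX
  have hb : SBas.{u} := bas84
  have hcr : SCrit.{u, v} := crit
  have hex : SExt.{u, v} := ext2
  have hsu : SSurp.{u, v} := surp hb hcr
  have hE : SThE.{u, v} := thE hb hcr hex hsu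
  have hE2 : SThE2.{u, v} := thE2 hb hcr hex hE
  have hL : SLemA.{u, v} := lemA hb hcr hE2
  have hsub : SSub.{u} := sub del bri com
  have hhyp : SHypK.{u} := hypK sep
  have hpos : SPosA.{u} := posA hb
  have hkey : SKeyA.{u} := keyA hb
  have hfo : SForbA.{u, v} := forbA hcr hL
  have hfi : SFixA.{u, v} := fixA hb hcr hex hL hfo
  have hfl : SFlex.{u, v} := flex ran
  obtain ⟨h5, -, hcn⟩ := cycG V G hg
  have hden : DenE G := by
    apply denE_of_large hb hsub V G hp h5
    intro X hC hc
    have h1 := hX X ((hcn X).1 hC) hc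
    have h2 := edge_e2 G X
    omega
  exact mainE hhyp hpos hkey hfo hfi hfl V C G hp h5 (edge_pia hden) (edge_all hb hden)

end Pool.Agent.Results.MP_07b392_co.EdgeDensity
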